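import Pool.Agent.H319R3.BogoI

set_option autoImplicit false

open Pool.Agent.H319R3.Bogo

/-- There are fields F₀ ≤ F of algebraic numbers, F of finite degree over F₀ and Galois over ℚ, with
only finitely many torsion points of the multiplicative group of F outside F₀, such that F₀ has the
Bogomolov property with respect to the multiplicative group and F does not.  -/
theorem Pool.Agent.Results.MP_d03a5a_nt.BogomolovFails.result :
    ∃ (F₀ F : IntermediateField ℚ (AlgebraicClosure ℚ)) (h : F₀ ≤ F),
      FiniteDimensional F₀ (IntermediateField.extendScalars h) ∧ IsGalois ℚ F ∧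
      (torsGm F \ torsGm F₀).Finite ∧ BogomolovGm F₀ ∧ ¬ BogomolovGm F :=
  main
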